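import Pool.Agent.Helper55.RT.Spec5
import Pool.Agent.Helper10.RL.CHP
import Pool.Agent.Helper51.RL.KMP

/-!
# THIN, part KIN (helper84): characters of order `p` are fixed by the Galois group of `K`
-/

set_option autoImplicit false
set_option linter.all false

open Polynomial IsDedekindDomain NumberField
open scoped Classical

namespace Pool.Agent.Helper84.Thin.KIN

open Pool.Agent.TH115.GD Pool.Agent.Helper55.TT Pool.Agent.R939.EI
open Pool.Agent.Helper55.RG hiding em_inj VanishL VanishExt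
open Pool.Agent.Helper55.RL
open Pool.Agent.Helper55.RT

section core

variable {k' F : Type} [Field k'] [Field F] [Algebra k'[X] F] [IsFractionRing k'[X] F]

/-- roots of order `p` which are fixed by the inertia group -/
theorem mult_div' {p : ℕ} {y : Sep F} {f : k'[X]} (hf : f ≠ 0) (hp : p ≠ 0)
    (hy : y ^ p = algebraMap F (Sep F) (algebraMap k'[X] F f)) (a : k')
    (ι : Sep F →ₐ[F] Sep (Comp k'[X] F (pl a)))
    (h : ∀ σ : Sep F ≃ₐ[F] Sep F, InI (Comp k'[X] F (pl a)) ι σ → σ y = y) :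
    p ∣ rootMultiplicity a f := by
  have h1 : ι y ∈ Set.range (algebraMap (Comp k'[X] F (pl a)) (Sep (Comp k'[X] F (pl a)))) := by
    rw [InfiniteGalois.mem_range_algebraMap_iff_fixed]
    intro τ
    obtain ⟨σ, hσ⟩ := exists_restrict (F := F) (Ω := Sep F) (L := Comp k'[X] F (pl a))
      (Ω' := Sep (Comp k'[X] F (pl a))) ι τ
    rw [hσ, h σ ⟨τ, hσ⟩]
  obtain ⟨t, ht⟩ := h1
  have h2 : algebraMap F (Comp k'[X] F (pl a)) (algebraMap k'[X] F f) = t ^ p := by
    apply inj_alg (E := Sep (Comp k'[X] F (pl a)))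
    rw [← IsScalarTower.algebraMap_apply F (Comp k'[X] F (pl a)), map_pow, ht, ← map_pow, hy]
    exact (ι.commutes _).symm
  have h3 : wv (pl a) t ^ p = WithZero.exp (-(rootMultiplicity a f : ℤ)) := by
    rw [← map_pow, ← h2, wv_coe, val_poly a hf]
  have h4 : wv (pl a) t ≠ 0 := by
    intro h4
    rw [h4, zero_pow hp] at h3
    exact WithZero.exp_ne_zero h3.symm
  rw [← WithZero.exp_log h4, ← WithZero.exp_nsmul] at h3
  have h5 := WithZero.exp_injective h3
  have h6 : (p : ℤ) ∣ (rootMultiplicity a f : ℤ) := by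
    rw [← dvd_neg, ← h5, nsmul_eq_mul]
    exact dvd_mul_right _ _
  exact_mod_cast h6

end core

/-- the parts with exponents smaller than `p` -/
theorem factor {k' : Type} [Field k'] [IsAlgClosed k'] {p : ℕ} (hp : 0 < p) (P : k'[X])
    (hP : P ≠ 0) : ∃ Q : k'[X], Q ≠ 0 ∧
      P = (∏ a ∈ P.roots.toFinset, (X - C a) ^ (rootMultiplicity a P % p)) * Q ^ p := by
  obtain ⟨c, hc⟩ := IsAlgClosed.exists_pow_nat_eq P.leadingCoeff hp
  have hc0 : c ≠ 0 := by
    rintro rfl
    rw [zero_pow hp.ne'] at hc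
    exact hP (leadingCoeff_eq_zero.1 hc.symm)
  refine ⟨C c * ∏ a ∈ P.roots.toFinset, (X - C a) ^ (rootMultiplicity a P / p), ?_, ?_⟩
  · refine mul_ne_zero (C_ne_zero.2 hc0) (Finset.prod_ne_zero_iff.2 fun a _ => ?_)
    exact pow_ne_zero _ (X_sub_C_ne_zero a)
  · have h1 : P = C P.leadingCoeff * (P.roots.map fun a => X - C a).prod :=
      (IsAlgClosed.splits P).eq_prod_roots
    conv_lhs => rw [h1]
    rw [Finset.prod_multiset_map_count, mul_pow, ← C_pow, hc, ← Finset.prod_pow,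
      mul_left_comm, ← Finset.prod_mul_distrib]
    congr 1
    refine Finset.prod_congr rfl fun a _ => ?_
    rw [count_roots, ← pow_mul, ← pow_add, mul_comm (_ / p), Nat.mod_add_div]

theorem main_of (hK : P_KMP) : Q_KIN := by
  intro p hpf k k' K F _ _ _ _ _ _ _ _ _ _ hT hμ s hs hroots χ hχc hχm hun τ σ₀ σ₁ hτ
  have hp : p.Prime := hpf.out
  haveI := hT.sep
  haveI := hT.fracK
  haveI : IsSepClosed k' := IsSepClosure.sep_closed k
  haveI : CharZero k' := charZero_of_injective_algebraMap (algebraMap k k').injective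
  haveI : IsAlgClosed k' := inferInstance
  have injk := (algebraMap k k').injective
  haveI : CharZero F := charZero_of_injective_algebraMap (IsFractionRing.injective k'[X] F)
  haveI : NeZero ((p : ℕ) : k') := ⟨by exact_mod_cast hp.ne_zero⟩
  haveI : NeZero p := ⟨hp.ne_zero⟩
  -- the roots of unity
  obtain ⟨z₀, hz₀⟩ := HasEnoughRootsOfUnity.exists_primitiveRoot k' p
  obtain ⟨z₁, rfl⟩ := hμ z₀ hz₀.pow_eq_one
  have hz₁ : IsPrimitiveRoot z₁ p := IsPrimitiveRoot.of_map_of_injective hz₀ injk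
  let φ : k →+* K := (algebraMap k[X] K).comp C
  set z : Sep F := algebraMap K (Sep F) (φ z₁) with hz
  have hzp : IsPrimitiveRoot z p :=
    (hz₁.map_of_injective φ.injective).map_of_injective (algebraMap K (Sep F)).injective
  have hzτ : ∀ n : ℕ, τ (z ^ n) = z ^ n := by
    intro n
    rw [map_pow, hz, τ.commutes]
  have hzF : z = algebraMap F (Sep F) (algebraMap K F (φ z₁)) :=
    IsScalarTower.algebraMap_apply K F (Sep F) _
  have hzσ : ∀ (σ : Sep F ≃ₐ[F] Sep F) (n : ℕ), σ (z ^ n) = z ^ n := by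
    intro σ n
    rw [map_pow, hzF, σ.commutes]
  let χ' : (Sep F ≃ₐ[F] Sep F) → Sep F := fun σ => z ^ (χ σ).val
  have hχ'm : ∀ σ σ', χ' (σ * σ') = χ' σ * χ' σ' := by
    intro σ σ'
    simp only [χ']
    rw [hχm, ZMod.val_add, ← pow_add, ← pow_eq_pow_mod _ hzp.pow_eq_one]
  have hχ1 : χ 1 = 0 := by
    have := hχm 1 1
    rw [mul_one] at this
    simpa using this
  -- continuity
  obtain ⟨S, hS, hSχ⟩ : ∃ S : Set (Sep F), S.Finite ∧
      ∀ u : Sep F ≃ₐ[F] Sep F, (∀ x ∈ S, u x = x) → χ' u = 1 := by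
    have hopen : IsOpen (χ ⁻¹' {0}) := (isOpen_discrete _).preimage hχc
    have hmem : χ ⁻¹' {0} ∈ nhds (1 : Sep F ≃ₐ[F] Sep F) := hopen.mem_nhds (by simpa using hχ1)
    rw [krullTopology_mem_nhds_one_iff] at hmem
    obtain ⟨E, hE, hEs⟩ := hmem
    haveI := hE
    let b := Module.finBasis F E
    refine ⟨Set.range fun i => ((b i : E) : Sep F), Set.finite_range _, fun u hu => ?_⟩
    have h1 : u ∈ E.fixingSubgroup := by
      rw [IntermediateField.mem_fixingSubgroup_iff]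
      intro x hx
      have h2 := b.sum_repr ⟨x, hx⟩
      have h3 := congrArg (fun t : E => (t : Sep F)) h2
      simp only at h3
      rw [← h3]
      simp only [IntermediateField.coe_sum, IntermediateField.coe_smul, map_sum]
      refine Finset.sum_congr rfl fun i _ => ?_
      rw [map_smul, hu _ ⟨i, rfl⟩]
    have h2 : χ u = 0 := hEs h1
    simp only [χ']
    rw [h2, ZMod.val_zero, pow_zero]
  obtain ⟨y, y0, hy, hχy⟩ := hK p F (Sep F) ⊥ χ' (fun ζ h => by
      obtain ⟨i, _, hi⟩ := hzp.eq_pow_of_pow_eq_one h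
      refine IntermediateField.mem_bot.2 ⟨algebraMap K F (φ z₁) ^ i, ?_⟩
      rw [map_pow, ← hzF]; exact hi) (fun σ => by
      simp only [χ']
      rw [← pow_mul, mul_comm, pow_mul, hzp.pow_eq_one, one_pow]) (fun σ _ σ' _ => hχ'm σ σ')
      S hS (fun u _ h => hSχ u h)
  obtain ⟨e, he⟩ := IntermediateField.mem_bot.1 hy
  have hχy' : ∀ σ : Sep F ≃ₐ[F] Sep F, σ y = χ' σ * y := by
    intro σ
    apply hχy
    rw [IntermediateField.fixingSubgroup_bot]
    trivial
  -- a polynomial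
  obtain ⟨f, d, hd, hfd⟩ := IsFractionRing.div_surjective (A := k'[X]) e
  have hd0 : d ≠ 0 := nonZeroDivisors.ne_zero hd
  have hdF : algebraMap k'[X] F d ≠ 0 := by simpa using hd0
  have hf0 : f ≠ 0 := by
    rintro rfl
    rw [map_zero, zero_div] at hfd
    rw [← hfd, map_zero] at he
    exact pow_ne_zero p y0 he.symm
  set P : k'[X] := f * d ^ (p - 1) with hPdef
  have hP0 : P ≠ 0 := mul_ne_zero hf0 (pow_ne_zero _ hd0)
  set y₁ : Sep F := y * algebraMap F (Sep F) (algebraMap k'[X] F d) with hy₁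
  have hdS : algebraMap F (Sep F) (algebraMap k'[X] F d) ≠ 0 := (_root_.map_ne_zero _).2 hdF
  have hy₁0 : y₁ ≠ 0 := mul_ne_zero y0 hdS
  have hy₁p : y₁ ^ p = algebraMap F (Sep F) (algebraMap k'[X] F P) := by
    rw [hy₁, mul_pow, ← he, ← map_pow, ← map_mul]
    congr 1
    rw [hPdef, map_mul, map_pow, ← hfd]
    have h2 : algebraMap k'[X] F d ^ p = algebraMap k'[X] F d ^ (p - 1) * algebraMap k'[X] F d := by
      rw [← pow_succ, Nat.sub_add_cancel hp.one_le]
    rw [h2]
    field_simp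
  have hy₁χ : ∀ σ : Sep F ≃ₐ[F] Sep F, σ y₁ = χ' σ * y₁ := by
    intro σ
    rw [hy₁, map_mul, hχy', σ.commutes, mul_assoc]
  -- the exponents outside of the roots of `s`
  have hdiv : ∀ a : k', aeval a s ≠ 0 → p ∣ rootMultiplicity a P := by
    intro a ha
    let ι' : Sep F →ₐ[F] Sep (Comp k'[X] F (pl a)) := IsSepClosed.lift
    refine mult_div' hP0 hp.ne_zero hy₁p a ι' fun σ hσ => ?_
    have h2 : χ σ = 0 := by
      refine hun (pl a) ?_ ι' σ hσ
      show ¬ (s.map (algebraMap k k')) ∈ Ideal.span {X - C a}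
      rw [Ideal.mem_span_singleton, dvd_iff_isRoot, IsRoot.def, eval_map_algebraMap]
      exact ha
    rw [hy₁χ]
    simp only [χ']
    rw [h2, ZMod.val_zero, pow_zero, one_mul]
  obtain ⟨Q, hQ0, hPQ⟩ := factor hp.pos P hP0
  have hb : ∀ a : k', ∃ b : k[X], b.map (algebraMap k k') =
      (X - C a) ^ (rootMultiplicity a P % p) := by
    intro a
    by_cases ha : aeval a s = 0
    · obtain ⟨a₀, rfl⟩ := hroots a ha
      exact ⟨(X - C a₀) ^ (rootMultiplicity (algebraMap k k' a₀) P % p), by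
        rw [Polynomial.map_pow, Polynomial.map_sub, map_X, map_C]⟩
    · exact ⟨1, by rw [Nat.mod_eq_zero_of_dvd (hdiv a ha), pow_zero, Polynomial.map_one]⟩
  choose b hb using hb
  set h : k[X] := ∏ a ∈ P.roots.toFinset, b a with hh
  have hmap : h.map (algebraMap k k') =
      ∏ a ∈ P.roots.toFinset, (X - C a) ^ (rootMultiplicity a P % p) := by
    rw [hh, Polynomial.map_prod]
    exact Finset.prod_congr rfl fun a _ => hb a
  rw [← hmap] at hPQ
  have hQF : algebraMap k'[X] F Q ≠ 0 := by simpa using hQ0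
  have hQS : algebraMap F (Sep F) (algebraMap k'[X] F Q) ≠ 0 := (_root_.map_ne_zero _).2 hQF
  set y₂ : Sep F := y₁ / algebraMap F (Sep F) (algebraMap k'[X] F Q) with hy₂
  have hy₂0 : y₂ ≠ 0 := div_ne_zero hy₁0 hQS
  have hy₂p : y₂ ^ p = algebraMap K (Sep F) (algebraMap k[X] K h) := by
    rw [hy₂, div_pow, hy₁p, IsScalarTower.algebraMap_apply K F (Sep F), hT.map, hPQ, map_mul,
      map_pow, map_mul, map_pow, mul_div_assoc, div_self (pow_ne_zero _ hQS), mul_one]
  have hy₂χ : ∀ σ : Sep F ≃ₐ[F] Sep F, σ y₂ = χ' σ * y₂ := by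
    intro σ
    rw [hy₂, map_div₀, hy₁χ, σ.commutes, mul_div_assoc]
  -- the action of `τ`
  obtain ⟨i, _, hi⟩ : ∃ i < p, z ^ i = τ y₂ / y₂ := hzp.eq_pow_of_pow_eq_one (by
    rw [div_pow, ← map_pow, hy₂p, τ.commutes, div_self]
    rw [← hy₂p]; exact pow_ne_zero _ hy₂0)
  have hτy : τ y₂ = z ^ i * y₂ := by rw [hi, div_mul_cancel₀ _ hy₂0]
  have h1 := hτ y₂
  rw [hy₂χ, map_mul, hτy, map_mul, hzσ, hy₂χ] at h1
  have h2 : τ (χ' σ₁) = χ' σ₁ := hzτ _
  rw [h2] at h1
  have h3 : χ' σ₁ = χ' σ₀ := by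
    have h4 : z ^ i * y₂ ≠ 0 := mul_ne_zero (pow_ne_zero _ (hzp.ne_zero hp.ne_zero)) hy₂0
    apply mul_right_cancel₀ h4
    rw [h1]; ring
  exact ZMod.val_injective p (hzp.pow_inj (ZMod.val_lt _) (ZMod.val_lt _) h3)

theorem main : Q_KIN := main_of Pool.Agent.Helper51.RL.KMP.main

end Pool.Agent.Helper84.Thin.KIN
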